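import Pool.Agent.R788.HE.Main

/-!
# MP_e6fbad_gt: the hyperelliptic involution of a surface of infinite type is unique

Let `R` be a Riemann surface with a hyperelliptic involution whose limit set (the set of the
accumulation points of the branch locus) is finite. Then `R` has exactly one hyperelliptic
involution. The same holds if the limit set has an isolated point.
-/

set_option autoImplicit false

open Topology
open scoped Manifold

namespace Pool.Agent.Results.MP_e6fbad_gt.UniqueInvolution

open Pool.Agent.R788.HE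

universe v

/-- Let `R` be a connected Riemann surface. (1) If some hyperelliptic involution of `R` has a
finite limit set, then `R` has exactly one hyperelliptic involution (with any branch locus).
(2) If some hyperelliptic involution `τ₀` of `R` has a limit set with an isolated point, then every
hyperelliptic involution of `R` is equal to `τ₀`. -/
theorem result {R : Type v} [TopologicalSpace R] [T2Space R] [ConnectedSpace R]
    [ChartedSpace ℂ R] [IsManifold 𝓘(ℂ) 1 R] :
    ((∃ (τ₀ : R ≃ₜ R) (B₀ : Set (OnePoint ℂ)), IsHypInv τ₀ B₀ ∧ (derivedSet B₀).Finite) →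
      ∃! τ : R ≃ₜ R, ∃ B : Set (OnePoint ℂ), IsHypInv τ B) ∧
    ∀ (τ₀ : R ≃ₜ R) (B₀ : Set (OnePoint ℂ)), IsHypInv τ₀ B₀ →
      (∃ q ∈ derivedSet B₀, ∀ᶠ w in 𝓝 q, w ∈ derivedSet B₀ → w = q) →
        ∀ (τ : R ≃ₜ R) (B : Set (OnePoint ℂ)), IsHypInv τ B → τ = τ₀ := by
  constructor
  · rintro ⟨τ₀, B₀, h₀, hfin⟩
    obtain ⟨q, hq, hiso⟩ := exists_isolated h₀.infinite hfin
    refine ⟨τ₀, ⟨B₀, h₀⟩, ?_⟩
    rintro τ ⟨B, h⟩
    exact (unique_of_isolated h₀ hq hiso h).symm
  · rintro τ₀ B₀ h₀ ⟨q, hq, hiso⟩ τ B h
    exact (unique_of_isolated h₀ hq hiso h).symm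

end Pool.Agent.Results.MP_e6fbad_gt.UniqueInvolution
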